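import Pool.Agent.H54.Fl.Final

/-!
# Vertex `π`-floodlights: `f (14 k + 1) ≥ 9 k`, hence `limsup f n / n ≥ 9 / 14`

The polygon with `14 k + 1` vertices consists of `k` images of one period (a pseudo-triangle with
15 vertices) under the powers of the affine map `(x, y) ↦ (x + 2453, y + 2 x + 2453)`; after this
normalization it is `x`-monotone.  In each period 13 witness points are each visible from exactly
three of the 15 vertices, and the resulting covering problem needs 9 floodlights.
-/

namespace Pool.Agent.H54.Fl.Spare.NineFourteenths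

open Filter Pool.Agent.H54.Fl
open scoped ENNReal

/-- For every `k ≥ 1` some simple polygon with `14 k + 1` vertices needs `9 k` inward-facing
`π`-floodlights (at most one at each vertex); consequently `limsup f n / n ≥ 9 / 14`. -/
theorem result : (∀ k : ℕ, 1 ≤ k → ((9 * k : ℕ) : ℕ∞) ≤ f (14 * k + 1)) ∧
    (9 / 14 : ℝ≥0∞) ≤ limsup (fun n : ℕ => (f n : ℝ≥0∞) / n) atTop :=
  ⟨fun _ hk => le_f hk, le_limsup_f⟩

end Pool.Agent.H54.Fl.Spare.NineFourteenths
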